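import Mathlib

set_option autoImplicit false

open MeasureTheory Set Filter Topology Metric

namespace Pool.Agent.X100.Diff

variable {X : Type*} [NormedAddCommGroup X] [NormedSpace ℝ X]

/-- Continuity of translations in `L¹`. -/
theorem transl (f : ℝ → X) (hf : Integrable f) :
    Tendsto (fun y : ℝ => ∫ x, ‖f (x + y) - f x‖) (𝓝 0) (𝓝 0) := by
  rw [Metric.tendsto_nhds]
  intro ε hε
  obtain ⟨g, hgc, hg, hgcont, hgi⟩ := hf.exists_hasCompactSupport_integral_sub_le
    (ε := ε / 4) (by positivity)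
  have hK : IsCompact (cthickening 1 (tsupport g)) := hgc.isCompact.cthickening
  have hvol : (volume (cthickening 1 (tsupport g))) < ⊤ := hK.measure_lt_top
  set V : ℝ := (volume (cthickening 1 (tsupport g))).toReal with hV
  have hV0 : 0 ≤ V := ENNReal.toReal_nonneg
  have huc : UniformContinuous g := hgcont.uniformContinuous_of_tendsto_cocompact
    (by exact hgc.is_zero_at_infty)
  obtain ⟨δ, hδ, hd⟩ := Metric.uniformContinuous_iff.1 huc (ε / (4 * (V + 1))) (by positivity)
  filter_upwards [Metric.ball_mem_nhds (0 : ℝ) (lt_min hδ one_pos)] with y hy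
  have hyd : ‖y‖ < δ := by
    have := mem_ball_zero_iff.1 hy; exact this.trans_le (min_le_left _ _)
  have hy1 : ‖y‖ < 1 := by
    have := mem_ball_zero_iff.1 hy; exact this.trans_le (min_le_right _ _)
  have hgy : Integrable (fun x => g (x + y)) := hgi.comp_add_right y
  have hfy : Integrable (fun x => f (x + y)) := hf.comp_add_right y
  have hmid : ∫ x, ‖g (x + y) - g x‖ ≤ ε / 4 := by
    have h1 : ∀ x, ‖g (x + y) - g x‖ ≤
        (cthickening 1 (tsupport g)).indicator (fun _ => ε / (4 * (V + 1))) x := by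
      intro x
      by_cases hx : x ∈ cthickening 1 (tsupport g)
      · rw [indicator_of_mem hx]
        have := hd (a := x + y) (b := x) (by rw [dist_eq_norm]; simpa using hyd)
        rw [dist_eq_norm] at this
        exact this.le
      · rw [indicator_of_notMem hx]
        have h0 : g x = 0 := by
          by_contra h
          exact hx (self_subset_cthickening _ (subset_tsupport g h))
        have h1 : g (x + y) = 0 := by
          by_contra h
          refine hx (mem_cthickening_of_dist_le x (x + y) 1 _ (subset_tsupport g h) ?_)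
          rw [dist_eq_norm]; simpa using hy1.le
        simp [h0, h1]
    calc ∫ x, ‖g (x + y) - g x‖
        ≤ ∫ x, (cthickening 1 (tsupport g)).indicator (fun _ => ε / (4 * (V + 1))) x := by
          refine integral_mono_of_nonneg (Eventually.of_forall fun x => norm_nonneg _) ?_
            (Eventually.of_forall h1)
          exact (integrable_indicator_iff hK.measurableSet).2
            (integrableOn_const hvol.ne)
      _ = V * (ε / (4 * (V + 1))) := by
          rw [integral_indicator hK.measurableSet, setIntegral_const, smul_eq_mul]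
          rfl
      _ ≤ ε / 4 := by
          have : V * (ε / (4 * (V + 1))) = (V / (V + 1)) * (ε / 4) := by
            field_simp
          rw [this]
          have h2 : V / (V + 1) ≤ 1 := by
            rw [div_le_one (by positivity)]; linarith
          nlinarith
  have hi1 : Integrable fun x => ‖f (x + y) - g (x + y)‖ := (hfy.sub hgy).norm
  have hi2 : Integrable fun x => ‖g (x + y) - g x‖ := (hgy.sub hgi).norm
  have hi3 : Integrable fun x => ‖f x - g x‖ := (hf.sub hgi).norm
  have e1 : ∫ x, ‖f (x + y) - g (x + y)‖ = ∫ x, ‖f x - g x‖ :=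
    integral_add_right_eq_self (μ := volume) (fun x => ‖f x - g x‖) y
  have h5 : ∫ x, ‖f (x + y) - f x‖ ≤
      ∫ x, (‖f (x + y) - g (x + y)‖ + ‖g (x + y) - g x‖ + ‖f x - g x‖) := by
    refine integral_mono_of_nonneg (Eventually.of_forall fun x => norm_nonneg _)
      ((hi1.add hi2).add hi3) (Eventually.of_forall fun x => ?_)
    calc ‖f (x + y) - f x‖ = ‖(f (x + y) - g (x + y)) + (g (x + y) - g x) + (g x - f x)‖ := by
          congr 1; abel
      _ ≤ ‖f (x + y) - g (x + y)‖ + ‖g (x + y) - g x‖ + ‖g x - f x‖ := norm_add₃_le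
      _ = _ := by rw [norm_sub_rev (g x)]
  have hi12 : Integrable fun x => ‖f (x + y) - g (x + y)‖ + ‖g (x + y) - g x‖ := hi1.add hi2
  rw [integral_add hi12 hi3, integral_add hi1 hi2, e1] at h5
  have h6 : 0 ≤ ∫ x, ‖f (x + y) - f x‖ := integral_nonneg fun x => norm_nonneg _
  rw [Real.dist_eq, sub_zero, abs_of_nonneg h6]
  linarith

/-- The admissible intervals. -/
def IsHalfLine (J : Set ℝ) : Prop := J = univ ∨ ∃ α : ℝ, J = Ici α ∨ J = Ioi α

lemma IsHalfLine.add_mem {J : Set ℝ} (hJ : IsHalfLine J) {t a : ℝ} (ht : t ∈ J) (ha : 0 ≤ a) :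
    t + a ∈ J := by
  rcases hJ with rfl | ⟨α, rfl | rfl⟩
  · trivial
  · exact le_trans (show α ≤ t from ht) (by linarith)
  · exact lt_of_lt_of_le (show α < t from ht) (by linarith)

lemma IsHalfLine.ordConnected {J : Set ℝ} (hJ : IsHalfLine J) : J.OrdConnected := by
  rcases hJ with rfl | ⟨α, rfl | rfl⟩
  · exact ordConnected_univ
  · exact ordConnected_Ici
  · exact ordConnected_Ioi

lemma IsHalfLine.left {J : Set ℝ} (hJ : IsHalfLine J) {t : ℝ} (ht : t ∈ J) :
    ∃ p ∈ J, p ≤ t ∧ ∀ᶠ s in 𝓝[J] t, p ≤ s := by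
  rcases hJ with rfl | ⟨α, rfl | rfl⟩
  · refine ⟨t - 1, trivial, by linarith, ?_⟩
    exact nhdsWithin_le_nhds (Ici_mem_nhds (by linarith))
  · exact ⟨α, mem_Ici.mpr le_rfl, ht, self_mem_nhdsWithin⟩
  · have h : α < t := ht
    refine ⟨(α + t) / 2, show α < (α + t) / 2 by linarith, by linarith, ?_⟩
    exact nhdsWithin_le_nhds (Ici_mem_nhds (by linarith))

/-- `f` is locally integrable and all its differences are continuous: then `f` is continuous. -/
theorem continuousOn_of_delta {J : Set ℝ} (hJ : IsHalfLine J) {f : ℝ → X}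
    (hf : ∀ p q : ℝ, Icc p q ⊆ J → IntegrableOn f (Icc p q))
    (hd : ∀ a, 0 < a → ContinuousOn (fun t => f (t + a) - f t) J) : ContinuousOn f J := by
  intro t ht
  obtain ⟨p, hpJ, hpt, hp⟩ := hJ.left ht
  have hK : Icc p (t + 2) ⊆ J :=
    hJ.ordConnected.out hpJ (hJ.add_mem ht (by norm_num))
  set g : ℝ → X := (Icc p (t + 2)).indicator f with hg
  have hgi : Integrable g := (integrable_indicator_iff measurableSet_Icc).mpr (hf _ _ hK)
  refine tendsto_of_subseq_tendsto fun ns hns => ?_
  have hns0 : Tendsto (fun n => ns n - t) atTop (𝓝 0) := by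
    have := (tendsto_nhds_of_tendsto_nhdsWithin hns).sub_const t
    rwa [sub_self] at this
  have hL1 : Tendsto (fun n => ∫ x, ‖g (x + (ns n - t)) - g x‖) atTop (𝓝 0) :=
    (transl g hgi).comp hns0
  have hgm : ∀ n, Integrable fun x => g (x + (ns n - t)) := fun n => hgi.comp_add_right _
  have hmeas : TendstoInMeasure volume (fun n x => g (x + (ns n - t))) atTop g := by
    refine tendstoInMeasure_of_tendsto_eLpNorm one_ne_zero
      (fun n => (hgm n).aestronglyMeasurable) hgi.aestronglyMeasurable ?_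
    have h1 : ∀ n, eLpNorm ((fun x => g (x + (ns n - t))) - g) 1 volume =
        ENNReal.ofReal (∫ x, ‖g (x + (ns n - t)) - g x‖) := by
      intro n
      have h0 := ofReal_integral_norm_eq_lintegral_enorm ((hgm n).sub hgi)
      rw [eLpNorm_one_eq_lintegral_enorm]
      exact h0.symm
    simp_rw [h1]
    have := (ENNReal.continuous_ofReal.tendsto 0).comp hL1
    rwa [ENNReal.ofReal_zero] at this
  obtain ⟨ms, hms, hae⟩ := hmeas.exists_seq_tendsto_ae
  have hpos : volume (Ioo t (t + 1)) ≠ 0 := by simp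
  obtain ⟨x, hx1, hx2⟩ : ∃ x ∈ Ioo t (t + 1),
      Tendsto (fun i => g (x + (ns (ms i) - t))) atTop (𝓝 (g x)) := by
    by_contra hcon
    push Not at hcon
    refine hpos (measure_mono_null (fun x hx => ?_) (ae_iff.mp hae))
    exact hcon x hx
  refine ⟨ms, ?_⟩
  set a := x - t with ha
  have ha0 : 0 < a := by linarith [hx1.1]
  have ha1 : a < 1 := by linarith [hx1.2]
  have hnsms : Tendsto (fun i => ns (ms i)) atTop (𝓝[J] t) := hns.comp hms.tendsto_atTop
  have hev : ∀ᶠ i in atTop, g (x + (ns (ms i) - t)) = f (ns (ms i) + a) := by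
    have h1 : ∀ᶠ s in 𝓝[J] t, s < t + 1 := nhdsWithin_le_nhds (Iio_mem_nhds (by linarith))
    filter_upwards [hnsms.eventually hp, hnsms.eventually h1] with i hi1 hi2
    have e1 : x + (ns (ms i) - t) = ns (ms i) + a := by rw [ha]; ring
    rw [e1]
    exact indicator_of_mem (show ns (ms i) + a ∈ Icc p (t + 2) from
      ⟨by linarith, by linarith⟩) f
  have hgx : g x = f (t + a) := by
    have e1 : t + a = x := by rw [ha]; ring
    rw [e1]
    exact indicator_of_mem (show x ∈ Icc p (t + 2) from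
      ⟨by linarith [hx1.1], by linarith [hx1.2]⟩) f
  have h2 : Tendsto (fun i => f (ns (ms i) + a)) atTop (𝓝 (f (t + a))) := by
    rw [← hgx]
    exact hx2.congr' hev
  have h3 : Tendsto (fun i => f (ns (ms i) + a) - f (ns (ms i))) atTop (𝓝 (f (t + a) - f t)) :=
    (hd a ha0 t ht).tendsto.comp hnsms
  have h4 := h2.sub h3
  simpa using h4

omit [NormedSpace ℝ X] in
/-- Uniform boundedness through Baire's theorem. -/
theorem unif_bound {ι : Type*} {J : Set ℝ} (hJ : IsHalfLine J) (F : ι → ℝ → X)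
    (hF : ∀ i, ContinuousOn (F i) J)
    (hb : ∀ a, 0 < a → ∃ B, ∀ i, ∀ t ∈ J, ‖F i (t + a) - F i t‖ ≤ B) (h : ℝ) :
    ∃ B, 0 ≤ B ∧ ∀ a, 0 ≤ a → a ≤ h → ∀ i, ∀ t ∈ J, ‖F i (t + a) - F i t‖ ≤ B := by
  set S : ℕ → Set ℝ := fun n => {x | ∀ i, ∀ t ∈ J, ‖F i (t + |x|) - F i t‖ ≤ n} with hS
  have hcl : ∀ n, IsClosed (S n) := by
    intro n
    have h1 : S n = ⋂ i, ⋂ t ∈ J, {x | ‖F i (t + |x|) - F i t‖ ≤ n} := by
      ext x; simp [hS]
    rw [h1]
    refine isClosed_iInter fun i => isClosed_biInter fun t ht => ?_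
    refine isClosed_le ?_ continuous_const
    have h2 : Continuous fun x : ℝ => F i (t + |x|) := by
      refine (hF i).comp_continuous (by fun_prop) fun x => hJ.add_mem ht (abs_nonneg x)
    exact (h2.sub continuous_const).norm
  have hun : ⋃ n, S n = univ := by
    refine eq_univ_of_forall fun x => ?_
    rw [mem_iUnion]
    by_cases hx : x = 0
    · exact ⟨0, fun i t _ => by simp [hx]⟩
    · obtain ⟨B, hB⟩ := hb |x| (abs_pos.mpr hx)
      obtain ⟨n, hn⟩ := exists_nat_ge B
      exact ⟨n, fun i t ht => (hB i t ht).trans hn⟩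
  obtain ⟨n, x0, hx0⟩ := nonempty_interior_of_iUnion_of_closed hcl hun
  obtain ⟨r, hr, hball⟩ := Metric.isOpen_iff.mp isOpen_interior x0 hx0
  -- small increments
  have hsmall : ∀ b, 0 ≤ b → b < r → ∀ i, ∀ t ∈ J, ‖F i (t + b) - F i t‖ ≤ 2 * n := by
    intro b hb0 hbr i t ht
    obtain ⟨y, hy, hyabs⟩ : ∃ y ∈ ball x0 r, |y| = |x0| + b := by
      rcases le_or_gt 0 x0 with h0 | h0
      · refine ⟨x0 + b, ?_, ?_⟩
        · rw [mem_ball, Real.dist_eq]; simpa [abs_of_nonneg hb0] using hbr
        · rw [abs_of_nonneg h0, abs_of_nonneg (by linarith)]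
      · refine ⟨x0 - b, ?_, ?_⟩
        · rw [mem_ball, Real.dist_eq]; simpa [abs_of_nonneg hb0] using hbr
        · rw [abs_of_neg h0, abs_of_neg (by linarith)]; ring
    have h1 : ‖F i (t + (|x0| + b)) - F i t‖ ≤ n := by
      have := interior_subset (hball hy) i t ht
      rwa [hyabs] at this
    have h2 : ‖F i ((t + b) + |x0|) - F i (t + b)‖ ≤ n :=
      interior_subset hx0 i (t + b) (hJ.add_mem ht hb0)
    have e : F i (t + b) - F i t = (F i (t + (|x0| + b)) - F i t) -
        (F i ((t + b) + |x0|) - F i (t + b)) := by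
      rw [show t + b + |x0| = t + (|x0| + b) by ring]
      abel
    rw [e]
    calc _ ≤ ‖F i (t + (|x0| + b)) - F i t‖ + ‖F i ((t + b) + |x0|) - F i (t + b)‖ :=
          norm_sub_le _ _
      _ ≤ 2 * n := by linarith
  obtain ⟨N, hN⟩ := exists_nat_gt (h / r)
  have hN' : h < N * r := by rwa [div_lt_iff₀ hr] at hN
  have hchain : ∀ k : ℕ, ∀ b, 0 ≤ b → b < r → ∀ i, ∀ t ∈ J,
      ‖F i (t + k * b) - F i t‖ ≤ k * (2 * n) := by
    intro k
    induction k with
    | zero => intro b _ _ i t _; simp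
    | succ k ih =>
      intro b hb0 hbr i t ht
      have h1 := ih b hb0 hbr i t ht
      have h2 := hsmall b hb0 hbr i (t + k * b) (hJ.add_mem ht (by positivity))
      have e : F i (t + ((k + 1 : ℕ) : ℝ) * b) - F i t =
          (F i (t + k * b + b) - F i (t + k * b)) + (F i (t + k * b) - F i t) := by
        have : t + ((k + 1 : ℕ) : ℝ) * b = t + k * b + b := by push_cast; ring
        rw [this]; abel
      rw [e]
      push_cast
      calc _ ≤ ‖F i (t + k * b + b) - F i (t + k * b)‖ + ‖F i (t + k * b) - F i t‖ :=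
            norm_add_le _ _
        _ ≤ _ := by linarith
  refine ⟨N * (2 * n), by positivity, fun a ha0 hah i t ht => ?_⟩
  rcases Nat.eq_zero_or_pos N with hN0 | hN0
  · subst hN0
    simp only [Nat.cast_zero, zero_mul] at hN'
    exact absurd (ha0.trans hah) (not_le.mpr hN')
  · have hNr : (0 : ℝ) < N := by exact_mod_cast hN0
    have h1 := hchain N (a / N) (by positivity) (by
      rw [div_lt_iff₀ hNr]; linarith) i t ht
    rwa [mul_div_cancel₀ _ hNr.ne'] at h1

omit [NormedSpace ℝ X] in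
/-- A uniformly continuous function on a half line has bounded increments over bounded lengths. -/
theorem uc_osc {J : Set ℝ} (hJ : IsHalfLine J) {u : ℝ → X} (hu : UniformContinuousOn u J) (R : ℝ) :
    ∃ B, 0 ≤ B ∧ ∀ t ∈ J, ∀ r, 0 ≤ r → r ≤ R → ‖u (t + r) - u t‖ ≤ B := by
  obtain ⟨δ, hδ, hd⟩ := Metric.uniformContinuousOn_iff.mp hu 1 one_pos
  obtain ⟨N, hN⟩ := exists_nat_gt (R / δ)
  have hN' : R < N * δ := by rwa [div_lt_iff₀ hδ] at hN
  have hchain : ∀ k : ℕ, ∀ b, 0 ≤ b → b < δ → ∀ t ∈ J, ‖u (t + k * b) - u t‖ ≤ k := by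
    intro k
    induction k with
    | zero => intro b _ _ t _; simp
    | succ k ih =>
      intro b hb0 hbr t ht
      have h1 := ih b hb0 hbr t ht
      have hm : t + k * b ∈ J := hJ.add_mem ht (by positivity)
      have h2 := hd (t + k * b + b) (hJ.add_mem hm hb0) (t + k * b) hm (by
        rw [Real.dist_eq]; simpa [abs_of_nonneg hb0] using hbr)
      rw [dist_eq_norm] at h2
      have e : u (t + ((k + 1 : ℕ) : ℝ) * b) - u t =
          (u (t + k * b + b) - u (t + k * b)) + (u (t + k * b) - u t) := by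
        have : t + ((k + 1 : ℕ) : ℝ) * b = t + k * b + b := by push_cast; ring
        rw [this]; abel
      rw [e]
      push_cast
      calc _ ≤ ‖u (t + k * b + b) - u (t + k * b)‖ + ‖u (t + k * b) - u t‖ :=
            norm_add_le _ _
        _ ≤ _ := by linarith
  refine ⟨N, by positivity, fun t ht r hr0 hrR => ?_⟩
  rcases Nat.eq_zero_or_pos N with hN0 | hN0
  · subst hN0
    simp only [Nat.cast_zero, zero_mul] at hN'
    exact absurd (hr0.trans hrR) (not_le.mpr hN')
  · have hNr : (0 : ℝ) < N := by exact_mod_cast hN0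
    have h1 := hchain N (r / N) (by positivity) (by
      rw [div_lt_iff₀ hNr]; linarith) t ht
    rwa [mul_div_cancel₀ _ hNr.ne'] at h1

/-- Integrals of uniformly continuous functions depending on a parameter. -/
theorem uc_integral {J : Set ℝ} (G : ℝ → ℝ → X) (h : ℝ)
    (huc : ∀ a ∈ Ioc 0 h, UniformContinuousOn (G a) J)
    (hi : ∀ t ∈ J, IntegrableOn (fun a => G a t) (Ioc 0 h))
    (B : ℝ) (hB : ∀ a ∈ Ioc 0 h, ∀ t ∈ J, ∀ t' ∈ J, dist t t' < 1 → ‖G a t - G a t'‖ ≤ B) :
    UniformContinuousOn (fun t => ∫ a in Ioc 0 h, G a t) J := by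
  rw [Metric.uniformContinuousOn_iff]
  -- the filter formulation
  have key : Tendsto (fun x : ℝ × ℝ => ∫ a in Ioc 0 h, (G a x.1 - G a x.2))
      (uniformity ℝ ⊓ 𝓟 (J ×ˢ J)) (𝓝 (∫ _a in Ioc 0 h, (0 : X))) := by
    have hnear : ∀ᶠ x : ℝ × ℝ in uniformity ℝ ⊓ 𝓟 (J ×ˢ J),
        dist x.1 x.2 < 1 ∧ x.1 ∈ J ∧ x.2 ∈ J := by
      rw [eventually_inf_principal]
      filter_upwards [Metric.dist_mem_uniformity one_pos] with x hx hxJ
      exact ⟨hx, hxJ.1, hxJ.2⟩
    refine tendsto_integral_filter_of_dominated_convergence (fun _ => B) ?_ ?_ ?_ ?_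
    · filter_upwards [hnear] with x hx
      exact ((hi x.1 hx.2.1).sub (hi x.2 hx.2.2)).aestronglyMeasurable
    · filter_upwards [hnear] with x hx
      refine (ae_restrict_iff' measurableSet_Ioc).mpr (Eventually.of_forall fun a ha => ?_)
      exact hB a ha _ hx.2.1 _ hx.2.2 hx.1
    · exact integrableOn_const measure_Ioc_lt_top.ne
    · refine (ae_restrict_iff' measurableSet_Ioc).mpr (Eventually.of_forall fun a ha => ?_)
      rw [Metric.tendsto_nhds]
      intro ε hε
      obtain ⟨δ, hδ, hd⟩ := Metric.uniformContinuousOn_iff.mp (huc a ha) ε hε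
      rw [eventually_inf_principal]
      filter_upwards [Metric.dist_mem_uniformity hδ] with x hx hxJ
      have := hd x.1 hxJ.1 x.2 hxJ.2 hx
      rwa [dist_eq_norm, sub_zero, ← dist_eq_norm]
  intro ε hε
  rw [integral_zero] at key
  have h1 := (Metric.tendsto_nhds.mp key) ε hε
  rw [eventually_inf_principal, Filter.Eventually, Metric.mem_uniformity_dist] at h1
  obtain ⟨δ, hδ, hd⟩ := h1
  refine ⟨δ, hδ, fun s hs t ht hst => ?_⟩
  have h2 := hd hst ⟨hs, ht⟩
  simp only at h2
  rw [integral_sub (hi s hs) (hi t ht), dist_eq_norm, sub_zero] at h2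
  rw [dist_eq_norm]
  exact h2

end Pool.Agent.X100.Diff
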