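import Pool.Agent.X100.Diff.Base

set_option autoImplicit false

open MeasureTheory Set Filter Topology Metric

namespace Pool.Agent.X100.Diff

/-- For `|m| ≥ 1`, the number of the same sign as `m` with square `m² + s`. -/
noncomputable def tau (m s : ℝ) : ℝ := m * √(1 + s / max (m ^ 2) 1)

lemma max_pos (m : ℝ) : 0 < max (m ^ 2) 1 := lt_of_lt_of_le one_pos (le_max_right _ _)

lemma tau_cont : Continuous fun p : ℝ × ℝ => tau p.1 p.2 := by
  unfold tau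
  refine continuous_fst.mul (Continuous.sqrt (continuous_const.add ?_))
  exact continuous_snd.div (by fun_prop) fun p => (max_pos p.1).ne'

lemma tau_sq {m s : ℝ} (hm : 1 ≤ |m|) (hs : 0 ≤ s) : tau m s ^ 2 = m ^ 2 + s := by
  have h1 : 1 ≤ m ^ 2 := by
    rw [← sq_abs]; nlinarith
  unfold tau
  have h2 : m ^ 2 ≠ 0 := by linarith
  rw [mul_pow, Real.sq_sqrt (by positivity), max_eq_left h1, mul_add, mul_one,
    mul_div_cancel₀ _ h2]

lemma tau_sub_aux {m s : ℝ} (hs : 0 ≤ s) : |tau m s - m| ≤ |m| * (s / max (m ^ 2) 1 / 2) := by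
  set x := s / max (m ^ 2) 1 with hx
  have hx0 : 0 ≤ x := div_nonneg hs (max_pos m).le
  have h1 : tau m s - m = m * (√(1 + x) - 1) := by unfold tau; ring
  have h2 : 1 ≤ √(1 + x) := by
    rw [Real.one_le_sqrt]; linarith
  have h3 : √(1 + x) ≤ 1 + x / 2 := by
    rw [Real.sqrt_le_left (by positivity)]
    nlinarith [sq_nonneg x]
  rw [h1, abs_mul, abs_of_nonneg (by linarith : 0 ≤ √(1 + x) - 1)]
  exact mul_le_mul_of_nonneg_left (by linarith) (abs_nonneg _)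

lemma tau_sub {m s : ℝ} (hs : 0 ≤ s) (hs2 : s ≤ 2 * Real.pi) : |tau m s - m| ≤ 4 := by
  refine (tau_sub_aux hs).trans ?_
  have h1 : |m| ≤ max (m ^ 2) 1 := by
    rcases le_total |m| 1 with h | h
    · exact h.trans (le_max_right _ _)
    · refine le_trans ?_ (le_max_left _ _)
      rw [← sq_abs]; nlinarith
  have h2 : |m| * (s / max (m ^ 2) 1 / 2) = (|m| / max (m ^ 2) 1) * (s / 2) := by ring
  rw [h2]
  have h3 : |m| / max (m ^ 2) 1 ≤ 1 := by rwa [div_le_one (max_pos m)]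
  have h4 := Real.pi_lt_four
  have h5 : 0 ≤ |m| / max (m ^ 2) 1 := div_nonneg (abs_nonneg _) (max_pos m).le
  nlinarith

lemma tau_sub' {m s : ℝ} (hs : 0 ≤ s) (hs2 : s ≤ 2 * Real.pi) : |tau m s - m| * |m| ≤ 4 := by
  have h0 := mul_le_mul_of_nonneg_right (tau_sub_aux (m := m) hs) (abs_nonneg m)
  refine h0.trans ?_
  have h1 : |m| * |m| ≤ max (m ^ 2) 1 := by
    rw [abs_mul_abs_self, ← sq]; exact le_max_left _ _
  have h2 : |m| * (s / max (m ^ 2) 1 / 2) * |m| = (|m| * |m| / max (m ^ 2) 1) * (s / 2) := by ring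
  rw [h2]
  have h3 : |m| * |m| / max (m ^ 2) 1 ≤ 1 := by rwa [div_le_one (max_pos m)]
  have h4 := Real.pi_lt_four
  have h5 : 0 ≤ |m| * |m| / max (m ^ 2) 1 := div_nonneg (by positivity) (max_pos m).le
  nlinarith

variable {𝕜 : Type*} [RCLike 𝕜]

/-- The kernel used to recover `v` from `u + w(t²) v`. -/
structure Kern (w ψ : ℝ → 𝕜) (c : ℝ) : Prop where
  wc : Continuous w
  ψc : Continuous ψ
  w1 : ∀ x, ‖w x‖ ≤ 1
  ψ1 : ∀ x, ‖ψ x‖ ≤ 1
  c0 : 0 ≤ c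
  c1 : c * (2 * Real.pi) ≤ 2
  i0 : ∀ x, ∫ s in (0 : ℝ)..(2 * Real.pi), ψ (x + s) = 0
  i1 : ∀ x, (c : 𝕜) * ∫ s in (0 : ℝ)..(2 * Real.pi), ψ (x + s) * w (x + s) = 1

variable {X : Type*} [NormedAddCommGroup X] [NormedSpace ℝ X] [NormedSpace 𝕜 X]
  [IsScalarTower ℝ 𝕜 X]

noncomputable def W (ψ : ℝ → 𝕜) (c : ℝ) (f : ℝ → X) (a m : ℝ) : X :=
  c • ∫ s in (0 : ℝ)..(2 * Real.pi), ψ (m ^ 2 + s) • (f (tau m s + a) - f (tau m s))

lemma W_cont {ψ : ℝ → 𝕜} (hψ : Continuous ψ) (c : ℝ) {f : ℝ → X} (hf : Continuous f) :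
    Continuous fun p : ℝ × ℝ => W ψ c f p.1 p.2 := by
  unfold W
  refine continuous_const.smul ?_
  refine intervalIntegral.continuous_parametric_intervalIntegral_of_continuous'
    (f := fun (p : ℝ × ℝ) (s : ℝ) => ψ (p.2 ^ 2 + s) • (f (tau p.2 s + p.1) - f (tau p.2 s)))
    ?_ 0 (2 * Real.pi)
  have h1 : Continuous fun q : (ℝ × ℝ) × ℝ => tau q.1.2 q.2 :=
    tau_cont.comp ((continuous_snd.comp continuous_fst).prodMk continuous_snd)
  have h2 : Continuous fun q : (ℝ × ℝ) × ℝ => q.1.1 := continuous_fst.comp continuous_fst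
  have h3 : Continuous fun q : (ℝ × ℝ) × ℝ => ψ (q.1.2 ^ 2 + q.2) := by fun_prop
  exact h3.smul ((hf.comp (h1.add h2)).sub (hf.comp h1))

lemma W_bound [CompleteSpace X] {w ψ : ℝ → 𝕜} {c : ℝ} (hk : Kern w ψ c) {f : ℝ → X}
    (hf : Continuous f) (a m : ℝ) (B : ℝ)
    (hB : ∀ s, 0 ≤ s → s ≤ 2 * Real.pi →
      ‖(f (tau m s + a) - f (tau m s)) - (f (m + a) - f m)‖ ≤ B) :
    ‖W ψ c f a m‖ ≤ 2 * B := by
  have hpi : (0 : ℝ) ≤ 2 * Real.pi := by positivity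
  have hc : Continuous fun s : ℝ => ψ (m ^ 2 + s) • (f (tau m s + a) - f (tau m s)) := by
    have h1 : Continuous fun s : ℝ => tau m s := tau_cont.comp (continuous_const.prodMk continuous_id)
    have h3 : Continuous fun s : ℝ => ψ (m ^ 2 + s) := hk.ψc.comp (by fun_prop)
    exact h3.smul ((hf.comp (h1.add continuous_const)).sub (hf.comp h1))
  have hc2 : Continuous fun s : ℝ => ψ (m ^ 2 + s) • (f (m + a) - f m) := by
    have h3 : Continuous fun s : ℝ => ψ (m ^ 2 + s) := hk.ψc.comp (by fun_prop)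
    exact h3.smul continuous_const
  have e : ∫ s in (0 : ℝ)..(2 * Real.pi), ψ (m ^ 2 + s) • (f (tau m s + a) - f (tau m s)) =
      ∫ s in (0 : ℝ)..(2 * Real.pi), (ψ (m ^ 2 + s) • (f (tau m s + a) - f (tau m s)) -
        ψ (m ^ 2 + s) • (f (m + a) - f m)) := by
    rw [intervalIntegral.integral_sub (hc.intervalIntegrable _ _) (hc2.intervalIntegrable _ _),
      intervalIntegral.integral_smul_const, hk.i0, zero_smul, sub_zero]
  unfold W
  rw [e, norm_smul, Real.norm_eq_abs, abs_of_nonneg hk.c0]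
  have hB0 : 0 ≤ B := (norm_nonneg _).trans (hB 0 le_rfl hpi)
  have h1 : ‖∫ s in (0 : ℝ)..(2 * Real.pi), (ψ (m ^ 2 + s) • (f (tau m s + a) - f (tau m s)) -
        ψ (m ^ 2 + s) • (f (m + a) - f m))‖ ≤ B * |2 * Real.pi - 0| := by
    refine intervalIntegral.norm_integral_le_of_norm_le_const fun s hs => ?_
    rw [uIoc_of_le hpi] at hs
    rw [← smul_sub, norm_smul]
    calc _ ≤ 1 * B := mul_le_mul (hk.ψ1 _) (hB s hs.1.le hs.2) (norm_nonneg _) zero_le_one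
      _ = B := one_mul B
  rw [sub_zero, abs_of_nonneg hpi] at h1
  calc _ ≤ c * (B * (2 * Real.pi)) := mul_le_mul_of_nonneg_left h1 hk.c0
    _ = (c * (2 * Real.pi)) * B := by ring
    _ ≤ 2 * B := mul_le_mul_of_nonneg_right hk.c1 hB0

lemma W_sub [CompleteSpace X] {w ψ : ℝ → 𝕜} {c : ℝ} (hk : Kern w ψ c) {f : ℝ → X}
    (hf : Continuous f) (a m : ℝ) (hm : 1 ≤ |m|) (u v : ℝ → X) (ε : ℝ)
    (huv : ∀ s, 0 ≤ s → s ≤ 2 * Real.pi → f (tau m s + a) - f (tau m s) =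
      u (tau m s) + w (tau m s ^ 2) • v (tau m s))
    (hu : ∀ s, 0 ≤ s → s ≤ 2 * Real.pi → ‖u (tau m s) - u m‖ ≤ ε)
    (hv : ∀ s, 0 ≤ s → s ≤ 2 * Real.pi → ‖v (tau m s) - v m‖ ≤ ε) :
    ‖W ψ c f a m - v m‖ ≤ 4 * ε := by
  have hpi : (0 : ℝ) ≤ 2 * Real.pi := by positivity
  have hε : 0 ≤ ε := (norm_nonneg _).trans (hu 0 le_rfl hpi)
  have h3 : Continuous fun s : ℝ => ψ (m ^ 2 + s) := hk.ψc.comp (by fun_prop)
  have h4 : Continuous fun s : ℝ => w (m ^ 2 + s) := hk.wc.comp (by fun_prop)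
  have hc : Continuous fun s : ℝ => ψ (m ^ 2 + s) • (f (tau m s + a) - f (tau m s)) := by
    have h1 : Continuous fun s : ℝ => tau m s := tau_cont.comp (continuous_const.prodMk continuous_id)
    exact h3.smul ((hf.comp (h1.add continuous_const)).sub (hf.comp h1))
  have hc2 : Continuous fun s : ℝ => ψ (m ^ 2 + s) • u m := h3.smul continuous_const
  have hc3 : Continuous fun s : ℝ => (ψ (m ^ 2 + s) * w (m ^ 2 + s)) • v m :=
    (h3.mul h4).smul continuous_const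
  have hc12 : Continuous fun s : ℝ => ψ (m ^ 2 + s) • (f (tau m s + a) - f (tau m s)) -
      ψ (m ^ 2 + s) • u m := hc.sub hc2
  have e : W ψ c f a m - v m =
      c • ∫ s in (0 : ℝ)..(2 * Real.pi), ((ψ (m ^ 2 + s) • (f (tau m s + a) - f (tau m s)) -
        ψ (m ^ 2 + s) • u m) - (ψ (m ^ 2 + s) * w (m ^ 2 + s)) • v m) := by
    rw [intervalIntegral.integral_sub (hc12.intervalIntegrable _ _)
      (hc3.intervalIntegrable _ _), intervalIntegral.integral_sub (hc.intervalIntegrable _ _)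
      (hc2.intervalIntegrable _ _), intervalIntegral.integral_smul_const,
      intervalIntegral.integral_smul_const, hk.i0, zero_smul, sub_zero, smul_sub]
    unfold W
    congr 1
    have h5 : c • ((∫ s in (0 : ℝ)..(2 * Real.pi), ψ (m ^ 2 + s) * w (m ^ 2 + s)) • v m) =
        ((c : 𝕜) * ∫ s in (0 : ℝ)..(2 * Real.pi), ψ (m ^ 2 + s) * w (m ^ 2 + s)) • v m := by
      rw [mul_smul, RCLike.real_smul_eq_coe_smul (K := 𝕜)]
    rw [h5, hk.i1, one_smul]
  rw [e, norm_smul, Real.norm_eq_abs, abs_of_nonneg hk.c0]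
  have h1 : ‖∫ s in (0 : ℝ)..(2 * Real.pi), ((ψ (m ^ 2 + s) • (f (tau m s + a) - f (tau m s)) -
        ψ (m ^ 2 + s) • u m) - (ψ (m ^ 2 + s) * w (m ^ 2 + s)) • v m)‖ ≤
      (2 * ε) * |2 * Real.pi - 0| := by
    refine intervalIntegral.norm_integral_le_of_norm_le_const fun s hs => ?_
    rw [uIoc_of_le hpi] at hs
    have h5 : ψ (m ^ 2 + s) • (f (tau m s + a) - f (tau m s)) -
        ψ (m ^ 2 + s) • u m - (ψ (m ^ 2 + s) * w (m ^ 2 + s)) • v m =
        ψ (m ^ 2 + s) • (u (tau m s) - u m) +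
          (ψ (m ^ 2 + s) * w (m ^ 2 + s)) • (v (tau m s) - v m) := by
      rw [huv s hs.1.le hs.2, tau_sq hm hs.1.le, smul_add, smul_smul, smul_sub, smul_sub]
      abel
    rw [h5]
    refine (norm_add_le _ _).trans ?_
    rw [norm_smul, norm_smul, norm_mul]
    have h6 : ‖ψ (m ^ 2 + s)‖ * ‖u (tau m s) - u m‖ ≤ 1 * ε :=
      mul_le_mul (hk.ψ1 _) (hu s hs.1.le hs.2) (norm_nonneg _) zero_le_one
    have h7 : ‖ψ (m ^ 2 + s)‖ * ‖w (m ^ 2 + s)‖ ≤ 1 * 1 :=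
      mul_le_mul (hk.ψ1 _) (hk.w1 _) (norm_nonneg _) zero_le_one
    have h8 : ‖ψ (m ^ 2 + s)‖ * ‖w (m ^ 2 + s)‖ * ‖v (tau m s) - v m‖ ≤ (1 * 1) * ε :=
      mul_le_mul h7 (hv s hs.1.le hs.2) (norm_nonneg _) (by norm_num)
    linarith
  rw [sub_zero, abs_of_nonneg hpi] at h1
  calc _ ≤ c * ((2 * ε) * (2 * Real.pi)) := mul_le_mul_of_nonneg_left h1 hk.c0
    _ = (c * (2 * Real.pi)) * (2 * ε) := by ring
    _ ≤ 2 * (2 * ε) := mul_le_mul_of_nonneg_right hk.c1 (by positivity)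
    _ = 4 * ε := by ring

end Pool.Agent.X100.Diff
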