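import Pool.Agent.X100.Diff.Kern

set_option autoImplicit false

open MeasureTheory Set Filter Topology Metric

namespace Pool.Agent.X100.Diff

variable {𝕜 : Type*} [RCLike 𝕜]
variable {X : Type*} [NormedAddCommGroup X]

lemma ucadd {J : Set ℝ} {u v : ℝ → X} (hu : UniformContinuousOn u J)
    (hv : UniformContinuousOn v J) : UniformContinuousOn (fun t => u t + v t) J := by
  rw [uniformContinuousOn_iff_restrict] at *
  exact hu.add hv

lemma ucsub {J : Set ℝ} {u v : ℝ → X} (hu : UniformContinuousOn u J)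
    (hv : UniformContinuousOn v J) : UniformContinuousOn (fun t => u t - v t) J := by
  rw [uniformContinuousOn_iff_restrict] at *
  exact hu.sub hv

/-- `D` tends to zero at infinity within `J`. -/
def Van (J : Set ℝ) (D : ℝ → X) : Prop := ∀ ε, 0 < ε → ∃ T : ℝ, ∀ t ∈ J, T ≤ |t| → ‖D t‖ ≤ ε

lemma uc_of_van {J0 : Set ℝ} (hc : IsClosed J0) {D : ℝ → X} (hD : ContinuousOn D J0)
    (hv : Van J0 D) : UniformContinuousOn D J0 := by
  rw [Metric.uniformContinuousOn_iff]
  intro ε hε
  obtain ⟨T, hT⟩ := hv (ε / 4) (by positivity)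
  have hK : IsCompact (J0 ∩ Icc (-T - 1) (T + 1)) := isCompact_Icc.inter_left hc
  obtain ⟨δ, hδ, hd⟩ := Metric.uniformContinuousOn_iff.mp
    (hK.uniformContinuousOn_of_continuous (hD.mono inter_subset_left)) ε hε
  refine ⟨min δ 1, lt_min hδ one_pos, fun s hs t ht hst => ?_⟩
  have h1 : dist s t < δ := hst.trans_le (min_le_left _ _)
  have h2 : |s - t| < 1 := by
    have := hst.trans_le (min_le_right _ _)
    rwa [Real.dist_eq] at this
  have h3 := abs_sub_abs_le_abs_sub s t
  have h4 := abs_sub_abs_le_abs_sub t s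
  rw [abs_sub_comm t s] at h4
  have hmem : ∀ x ∈ J0, |x| ≤ T + 1 → x ∈ J0 ∩ Icc (-T - 1) (T + 1) := by
    intro x hx hxT
    refine ⟨hx, ?_, ?_⟩
    · linarith [neg_abs_le x]
    · linarith [le_abs_self x]
  by_cases hsT : |s| < T ∨ |t| < T
  · refine hd s (hmem s hs ?_) t (hmem t ht ?_) h1
    · rcases hsT with h | h <;> linarith
    · rcases hsT with h | h <;> linarith
  · push Not at hsT
    have h5 := hT s hs hsT.1
    have h6 := hT t ht hsT.2
    rw [dist_eq_norm]
    have h7 := norm_sub_le (D s) (D t)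
    linarith

lemma uc_smul [NormedSpace 𝕜 X] {J : Set ℝ} (hJ : IsHalfLine J) {g : ℝ → 𝕜} (hg : Continuous g)
    (hg1 : ∀ x, ‖g x‖ ≤ 1) {E : ℝ → X} (hE : UniformContinuousOn E J) (hv : Van J E) :
    UniformContinuousOn (fun t => g t • E t) J := by
  -- boundedness
  obtain ⟨B, hB0, hB⟩ : ∃ B : ℝ, 0 ≤ B ∧ ∀ t ∈ J, ‖E t‖ ≤ B := by
    obtain ⟨T0, hT0⟩ := hv 1 one_pos
    obtain ⟨B, hB0, hB⟩ := uc_osc hJ hE (2 * |T0|)
    refine ⟨B + 1, by linarith, fun t ht => ?_⟩
    by_cases h : T0 ≤ |t|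
    · linarith [hT0 t ht h]
    · push Not at h
      have h1 := hB t ht (2 * |T0|) (by positivity) le_rfl
      have h2 : T0 ≤ abs (t + 2 * |T0|) := by
        have h3 := neg_abs_le t
        have h4 := le_abs_self T0
        have h5 : T0 ≤ t + 2 * |T0| := by linarith
        exact h5.trans (le_abs_self _)
      have h3 := hT0 (t + 2 * |T0|) (hJ.add_mem ht (by positivity)) h2
      have h4 : ‖E t‖ ≤ ‖E (t + 2 * |T0|)‖ + ‖E (t + 2 * |T0|) - E t‖ := by
        have : E t = E (t + 2 * |T0|) - (E (t + 2 * |T0|) - E t) := by abel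
        calc ‖E t‖ = ‖E (t + 2 * |T0|) - (E (t + 2 * |T0|) - E t)‖ := by rw [← this]
          _ ≤ _ := norm_sub_le _ _
      linarith
  rw [Metric.uniformContinuousOn_iff]
  intro ε hε
  obtain ⟨T, hT⟩ := hv (ε / 4) (by positivity)
  have hK : IsCompact (Icc (-|T| - 1) (|T| + 1)) := isCompact_Icc
  obtain ⟨δ1, hδ1, hd1⟩ := Metric.uniformContinuousOn_iff.mp
    (hK.uniformContinuousOn_of_continuous hg.continuousOn) (ε / (2 * (B + 1))) (by positivity)
  obtain ⟨δ2, hδ2, hd2⟩ := Metric.uniformContinuousOn_iff.mp hE (ε / 2) (by positivity)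
  refine ⟨min (min δ1 δ2) 1, lt_min (lt_min hδ1 hδ2) one_pos, fun s hs t ht hst => ?_⟩
  have h1 : dist s t < δ1 := hst.trans_le ((min_le_left _ _).trans (min_le_left _ _))
  have h1' : dist s t < δ2 := hst.trans_le ((min_le_left _ _).trans (min_le_right _ _))
  have h2 : |s - t| < 1 := by
    have := hst.trans_le (min_le_right _ _)
    rwa [Real.dist_eq] at this
  have h3 := abs_sub_abs_le_abs_sub s t
  have h4 := abs_sub_abs_le_abs_sub t s
  rw [abs_sub_comm t s] at h4
  have hTT := le_abs_self T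
  rw [dist_eq_norm]
  by_cases hsT : |s| ≤ |T| ∨ |t| ≤ |T|
  · have hmem : ∀ x : ℝ, |x| ≤ |T| + 1 → x ∈ Icc (-|T| - 1) (|T| + 1) := by
      intro x hxT
      constructor
      · linarith [neg_abs_le x]
      · linarith [le_abs_self x]
    have h5 := hd1 s (hmem s (by rcases hsT with h | h <;> linarith)) t
      (hmem t (by rcases hsT with h | h <;> linarith)) h1
    have h6 := hd2 s hs t ht h1'
    rw [dist_eq_norm] at h5 h6
    have e : g s • E s - g t • E t = g s • (E s - E t) + (g s - g t) • E t := by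
      rw [smul_sub, sub_smul]; abel
    rw [e]
    refine (norm_add_le _ _).trans_lt ?_
    rw [norm_smul, norm_smul]
    have h7 : ‖g s‖ * ‖E s - E t‖ ≤ 1 * ‖E s - E t‖ :=
      mul_le_mul_of_nonneg_right (hg1 s) (norm_nonneg _)
    have h8 : ‖g s - g t‖ * ‖E t‖ ≤ (ε / (2 * (B + 1))) * B :=
      mul_le_mul h5.le (hB t ht) (norm_nonneg _) (by positivity)
    have h9 : (ε / (2 * (B + 1))) * B ≤ ε / 2 := by
      rw [div_mul_eq_mul_div, div_le_div_iff₀ (by positivity) (by positivity)]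
      nlinarith
    linarith
  · push Not at hsT
    have h5 := hT s hs (by linarith)
    have h6 := hT t ht (by linarith)
    have h7 := norm_sub_le (g s • E s) (g t • E t)
    rw [norm_smul, norm_smul] at h7
    have h8 : ‖g s‖ * ‖E s‖ ≤ 1 * ‖E s‖ := mul_le_mul_of_nonneg_right (hg1 s) (norm_nonneg _)
    have h9 : ‖g t‖ * ‖E t‖ ≤ 1 * ‖E t‖ := mul_le_mul_of_nonneg_right (hg1 t) (norm_nonneg _)
    linarith

lemma exists_J0 {J : Set ℝ} (hJ : IsHalfLine J) : ∃ (J0 : Set ℝ) (P : ℝ → ℝ), IsClosed J0 ∧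
    IsHalfLine J0 ∧ J0 ⊆ J ∧ LipschitzWith 1 P ∧ (∀ t, P t ∈ J0) ∧ (∀ t ∈ J0, P t = t) ∧
    (∃ T : ℝ, ∀ t ∈ J, T ≤ |t| → t ∈ J0) ∧ ∀ m ∈ J0, ∀ s, 0 ≤ s → tau m s ∈ J0 := by
  by_cases hu : J = univ
  · exact ⟨univ, id, isClosed_univ, Or.inl rfl, by rw [hu], LipschitzWith.id, fun _ => trivial,
      fun _ _ => rfl, ⟨0, fun _ _ _ => trivial⟩, fun _ _ _ _ => trivial⟩
  · obtain ⟨α, hα⟩ : ∃ α : ℝ, Ioi α ⊆ J ∧ ∀ t ∈ J, α ≤ t := by
      rcases hJ with h | ⟨α, rfl | rfl⟩
      · exact absurd h hu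
      · exact ⟨α, Ioi_subset_Ici_self, fun t ht => ht⟩
      · exact ⟨α, Subset.rfl, fun t ht => le_of_lt ht⟩
    refine ⟨Ici (|α| + 1), fun t => max t (|α| + 1), isClosed_Ici, Or.inr ⟨_, Or.inl rfl⟩, ?_,
      LipschitzWith.id.max_const _, fun t => mem_Ici.mpr (le_max_right _ _),
      fun t ht => max_eq_left ht,
      ⟨|α| + 1, ?_⟩, ?_⟩
    · intro t ht
      refine hα.1 ?_
      have h1 : |α| + 1 ≤ t := ht
      have h2 := le_abs_self α
      exact show α < t by linarith
    · intro t ht hT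
      have h1 := hα.2 t ht
      have h2 := neg_abs_le α
      rcases abs_cases t with ⟨h3, h4⟩ | ⟨h3, h4⟩
      · rw [h3] at hT; exact hT
      · exfalso; linarith
    · intro m hm s hs
      have h1 : |α| + 1 ≤ m := hm
      have h0 := abs_nonneg α
      refine le_trans h1 ?_
      unfold tau
      have h2 : 1 ≤ √(1 + s / max (m ^ 2) 1) := by
        rw [Real.one_le_sqrt]
        have := div_nonneg hs (max_pos m).le
        linarith
      nlinarith

variable [NormedSpace ℝ X] [NormedSpace 𝕜 X] [IsScalarTower ℝ 𝕜 X] [CompleteSpace X]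

theorem main {J : Set ℝ} (hJ : IsHalfLine J) {w ψ : ℝ → 𝕜} {c : ℝ} (hk : Kern w ψ c)
    {f : ℝ → X} (hfc : ContinuousOn f J)
    (hd : ∀ a, 0 < a → ∃ u v : ℝ → X, UniformContinuousOn u J ∧ UniformContinuousOn v J ∧
      ∀ t ∈ J, f (t + a) - f t = u t + w (t ^ 2) • v t)
    (hosc : ∀ a, 0 < a → ∃ B, ∀ t ∈ J, ∀ r, 0 ≤ r → r ≤ 4 →
      ‖(f (t + r + a) - f (t + r)) - (f (t + a) - f t)‖ ≤ B)
    (h : ℝ) (hh : 0 < h) :
    ∃ U V : ℝ → X, UniformContinuousOn U J ∧ UniformContinuousOn V J ∧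
      (∃ B, ∀ t ∈ J, ‖V t‖ ≤ B) ∧
      ∀ t ∈ J, f t - h⁻¹ • (∫ s in t..(t + h), f s) = U t + w (t ^ 2) • V t := by
  obtain ⟨J0, P, hJ0c, hJ0, hsub, hPL, hPm, hPid, ⟨T1, hT1⟩, htau⟩ := exists_J0 hJ
  have hPc : Continuous P := hPL.continuous
  -- a globally continuous version of f
  set F : ℝ → X := fun x => f (P x) with hF
  have hFc : Continuous F := hfc.comp_continuous hPc fun t => hsub (hPm t)
  have hFf : ∀ x ∈ J0, F x = f x := fun x hx => by simp only [hF]; rw [hPid x hx]
  -- uniform bound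
  obtain ⟨B, hB0, hB⟩ := unif_bound hJ (fun (r : Icc (0 : ℝ) 4) t => f (t + r) - f t)
    (fun r => by
      refine ContinuousOn.sub (hfc.comp (by fun_prop) fun t ht => hJ.add_mem ht r.2.1) hfc)
    (fun a ha => by
      obtain ⟨B, hB⟩ := hosc a ha
      refine ⟨B, fun r t ht => ?_⟩
      have := hB t ht r r.2.1 r.2.2
      have e : f (t + a + r) - f (t + a) - (f (t + r) - f t) =
          (f (t + r + a) - f (t + r)) - (f (t + a) - f t) := by
        rw [show t + a + (r : ℝ) = t + r + a by ring]; abel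
      rw [e]
      exact this) h
  have hB' : ∀ a, 0 ≤ a → a ≤ h → ∀ t ∈ J, ∀ r, 0 ≤ r → r ≤ 4 →
      ‖(f (t + r + a) - f (t + r)) - (f (t + a) - f t)‖ ≤ B := by
    intro a ha0 hah t ht r hr0 hr4
    have h1 := hB a ha0 hah ⟨r, hr0, hr4⟩ t ht
    simp only at h1
    have e : f (t + a + r) - f (t + a) - (f (t + r) - f t) =
        (f (t + r + a) - f (t + r)) - (f (t + a) - f t) := by
      rw [show t + a + (r : ℝ) = t + r + a by ring]; abel
    rwa [e] at h1
  have hosc2 : ∀ a, 0 ≤ a → a ≤ h → ∀ t ∈ J, ∀ t' ∈ J, |t - t'| ≤ 4 →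
      ‖(f (t + a) - f t) - (f (t' + a) - f t')‖ ≤ B := by
    intro a ha0 hah t ht t' ht' htt
    rcases le_total t t' with h1 | h1
    · have h2 := hB' a ha0 hah t ht (t' - t) (by linarith) (by
        rw [abs_sub_comm] at htt; exact (le_abs_self _).trans htt)
      rw [add_sub_cancel] at h2
      rwa [norm_sub_rev]
    · have h2 := hB' a ha0 hah t' ht' (t - t') (by linarith) ((le_abs_self _).trans htt)
      rwa [add_sub_cancel] at h2
  -- the pieces
  set Vf : ℝ → ℝ → X := fun a t => W ψ c F a (P t) with hVf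
  set Uf : ℝ → ℝ → X := fun a t => (f (t + a) - f t) - w (t ^ 2) • Vf a t with hUf
  have hVB : ∀ a, 0 ≤ a → a ≤ h → ∀ t, ‖Vf a t‖ ≤ 2 * B := by
    intro a ha0 hah t
    refine W_bound hk hFc a (P t) B fun s hs0 hs2 => ?_
    have hm := hPm t
    have hτ := htau _ hm s hs0
    rw [hFf _ hm, hFf _ hτ, hFf _ (hJ0.add_mem hm ha0), hFf _ (hJ0.add_mem hτ ha0)]
    exact hosc2 a ha0 hah _ (hsub hτ) _ (hsub hm) (tau_sub hs0 hs2)
  have huc : ∀ a ∈ Ioc 0 h, UniformContinuousOn (Vf a) J ∧ UniformContinuousOn (Uf a) J := by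
    intro a ha
    obtain ⟨u, v, hu, hv, huv⟩ := hd a ha.1
    -- W - v vanishes at infinity
    have hvan : Van J0 (fun m => W ψ c F a m - v m) := by
      intro ε hε
      obtain ⟨δ1, hδ1, hd1⟩ := Metric.uniformContinuousOn_iff.mp hu (ε / 4) (by positivity)
      obtain ⟨δ2, hδ2, hd2⟩ := Metric.uniformContinuousOn_iff.mp hv (ε / 4) (by positivity)
      set δ := min δ1 δ2 with hδ
      have hδ0 : 0 < δ := lt_min hδ1 hδ2
      refine ⟨max 1 (4 / δ + 1), fun m hm hmT => ?_⟩
      have hm1 : 1 ≤ |m| := (le_max_left _ _).trans hmT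
      have hm2 : 4 / δ + 1 ≤ |m| := (le_max_right _ _).trans hmT
      have hclose : ∀ s, 0 ≤ s → s ≤ 2 * Real.pi → dist (tau m s) m < δ := by
        intro s hs0 hs2
        rw [Real.dist_eq]
        have h1 := tau_sub' (m := m) hs0 hs2
        have h2 : 4 / δ < |m| := by linarith
        rw [div_lt_iff₀ hδ0] at h2
        by_contra hcon
        push Not at hcon
        have h3 : δ * |m| ≤ |tau m s - m| * |m| := mul_le_mul_of_nonneg_right hcon (abs_nonneg _)
        nlinarith
      have h3 := W_sub hk hFc a m hm1 u v (ε / 4) (fun s hs0 hs2 => by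
          have hτ := htau _ hm s hs0
          rw [hFf _ hτ, hFf _ (hJ0.add_mem hτ ha.1.le)]
          exact huv _ (hsub hτ))
        (fun s hs0 hs2 => by
          have := hd1 _ (hsub (htau _ hm s hs0)) _ (hsub hm)
            ((hclose s hs0 hs2).trans_le (min_le_left _ _))
          rw [dist_eq_norm] at this
          exact this.le)
        (fun s hs0 hs2 => by
          have := hd2 _ (hsub (htau _ hm s hs0)) _ (hsub hm)
            ((hclose s hs0 hs2).trans_le (min_le_right _ _))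
          rw [dist_eq_norm] at this
          exact this.le)
      refine h3.trans (le_of_eq (by ring))
    have hWc : Continuous fun m => W ψ c F a m :=
      (W_cont hk.ψc c hFc).comp (continuous_const.prodMk continuous_id)
    have hD : UniformContinuousOn (fun m => W ψ c F a m - v m) J0 :=
      uc_of_van hJ0c (hWc.continuousOn.sub (hv.continuousOn.mono hsub)) hvan
    have hW : UniformContinuousOn (fun m => W ψ c F a m) J0 := by
      have := ucadd hD (hv.mono hsub)
      refine this.congr fun m hm => ?_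
      simp
    have hVuc : UniformContinuousOn (Vf a) J := by
      have h1 : UniformContinuousOn P J := hPL.uniformContinuous.uniformContinuousOn
      exact hW.comp h1 fun t _ => hPm t
    refine ⟨hVuc, ?_⟩
    have hE : UniformContinuousOn (fun t => v t - Vf a t) J := ucsub hv hVuc
    have hEv : Van J (fun t => v t - Vf a t) := by
      intro ε hε
      obtain ⟨T, hT⟩ := hvan ε hε
      refine ⟨max T T1, fun t ht htT => ?_⟩
      have htJ0 := hT1 t ht ((le_max_right _ _).trans htT)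
      have := hT t htJ0 ((le_max_left _ _).trans htT)
      simp only [hVf]
      rw [hPid t htJ0, norm_sub_rev]
      exact this
    have hg : Continuous fun t : ℝ => w (t ^ 2) := hk.wc.comp (by fun_prop)
    have h2 := ucadd hu (uc_smul hJ hg (fun x => hk.w1 _) hE hEv)
    refine h2.congr fun t ht => ?_
    simp only [hUf]
    rw [huv t ht, smul_sub]
    abel
  have hint : ∀ t ∈ J, IntegrableOn (fun a => f (t + a) - f t) (Ioc 0 h) := by
    intro t ht
    refine IntegrableOn.mono_set ?_ Ioc_subset_Icc_self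
    refine ContinuousOn.integrableOn_compact isCompact_Icc ?_
    exact (hfc.comp (by fun_prop) fun a ha => hJ.add_mem ht ha.1).sub continuousOn_const
  have hintV : ∀ t, IntegrableOn (fun a => Vf a t) (Ioc 0 h) := by
    intro t
    refine IntegrableOn.mono_set ?_ Ioc_subset_Icc_self
    refine ContinuousOn.integrableOn_compact isCompact_Icc (Continuous.continuousOn ?_)
    exact (W_cont hk.ψc c hFc).comp (continuous_id.prodMk continuous_const)
  have hintwV : ∀ t, IntegrableOn (fun a => w (t ^ 2) • Vf a t) (Ioc 0 h) := by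
    intro t
    exact (hintV t).smul (w (t ^ 2))
  have hintU : ∀ t ∈ J, IntegrableOn (fun a => Uf a t) (Ioc 0 h) := fun t ht =>
    (hint t ht).sub (hintwV t)
  have hUC1 : UniformContinuousOn (fun t => ∫ a in Ioc 0 h, Vf a t) J := by
    refine uc_integral Vf h (fun a ha => (huc a ha).1) (fun t _ => hintV t) (4 * B) ?_
    intro a ha t _ t' _ _
    have h1 := norm_sub_le (Vf a t) (Vf a t')
    have h2 := hVB a ha.1.le ha.2 t
    have h3 := hVB a ha.1.le ha.2 t'
    linarith
  have hUC2 : UniformContinuousOn (fun t => ∫ a in Ioc 0 h, Uf a t) J := by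
    refine uc_integral Uf h (fun a ha => (huc a ha).2) hintU (5 * B) ?_
    intro a ha t ht t' ht' htt
    rw [Real.dist_eq] at htt
    have h1 := hosc2 a ha.1.le ha.2 t ht t' ht' (by linarith)
    have h2 := hVB a ha.1.le ha.2 t
    have h3 := hVB a ha.1.le ha.2 t'
    have e : Uf a t - Uf a t' = ((f (t + a) - f t) - (f (t' + a) - f t')) -
        (w (t ^ 2) • Vf a t - w (t' ^ 2) • Vf a t') := by
      simp only [hUf]; abel
    rw [e]
    have h4 : ‖w (t ^ 2) • Vf a t‖ ≤ 1 * (2 * B) := by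
      rw [norm_smul]
      exact mul_le_mul (hk.w1 _) h2 (norm_nonneg _) zero_le_one
    have h5 : ‖w (t' ^ 2) • Vf a t'‖ ≤ 1 * (2 * B) := by
      rw [norm_smul]
      exact mul_le_mul (hk.w1 _) h3 (norm_nonneg _) zero_le_one
    have h6 := norm_sub_le (w (t ^ 2) • Vf a t) (w (t' ^ 2) • Vf a t')
    refine (norm_sub_le _ _).trans ?_
    linarith
  have hsc : ∀ {G : ℝ → X}, UniformContinuousOn G J →
      UniformContinuousOn (fun t => (-h⁻¹) • G t) J := by
    intro G hG
    exact (uniformContinuous_const_smul (-h⁻¹)).comp_uniformContinuousOn hG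
  refine ⟨fun t => (-h⁻¹) • ∫ a in Ioc 0 h, Uf a t, fun t => (-h⁻¹) • ∫ a in Ioc 0 h, Vf a t,
    hsc hUC2, hsc hUC1, ⟨h⁻¹ * (2 * B * h), fun t _ => ?_⟩, fun t ht => ?_⟩
  · rw [norm_smul, norm_neg, Real.norm_eq_abs, abs_of_pos (inv_pos.mpr hh)]
    refine mul_le_mul_of_nonneg_left ?_ (inv_pos.mpr hh).le
    have h1 := norm_setIntegral_le_of_norm_le_const (μ := volume) (s := Ioc 0 h)
      (f := fun a => Vf a t) (C := 2 * B) measure_Ioc_lt_top
      (fun a ha => hVB a ha.1.le ha.2 t)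
    rwa [Real.volume_real_Ioc_of_le hh.le, sub_zero] at h1
  · have e1 : ∫ s in t..(t + h), f s = ∫ a in Ioc 0 h, f (t + a) := by
      rw [← intervalIntegral.integral_of_le hh.le,
        intervalIntegral.integral_comp_add_left (fun s => f s) t, add_zero]
    have hi1 : IntegrableOn (fun a => f (t + a)) (Ioc 0 h) := by
      have := (hint t ht).add (integrableOn_const (C := f t) (μ := volume) (s := Ioc 0 h)
        measure_Ioc_lt_top.ne)
      refine this.congr_fun (fun a _ => ?_) measurableSet_Ioc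
      simp
    have e2 : ∫ a in Ioc 0 h, (f (t + a) - f t) = (∫ a in Ioc 0 h, f (t + a)) - h • f t := by
      rw [integral_sub hi1 (integrableOn_const measure_Ioc_lt_top.ne), setIntegral_const,
        Real.volume_real_Ioc_of_le hh.le, sub_zero]
    have e3 : ∫ a in Ioc 0 h, (f (t + a) - f t) =
        (∫ a in Ioc 0 h, Uf a t) + w (t ^ 2) • ∫ a in Ioc 0 h, Vf a t := by
      rw [← integral_smul, ← integral_add (hintU t ht) (hintwV t)]
      refine setIntegral_congr_fun measurableSet_Ioc fun a _ => ?_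
      simp only [hUf]
      abel
    have e4 : w (t ^ 2) • ((-h⁻¹) • ∫ a in Ioc 0 h, Vf a t) =
        (-h⁻¹) • (w (t ^ 2) • ∫ a in Ioc 0 h, Vf a t) := by
      rw [smul_comm]
    rw [e4, ← smul_add, ← e3, e2, ← e1, neg_smul, smul_sub, smul_smul, inv_mul_cancel₀ hh.ne',
      one_smul]
    abel

end Pool.Agent.X100.Diff
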